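import Mathlib
import Pool.Agent.H968.RD.Main

set_option autoImplicit false

open Filter Topology

namespace Pool.Agent.Results.MP_d3fc00_an.GlobalAttractivity

/-- For every `C` with `1 < C < (1 + √5) / 2`, every positive solution of
`x (n+3) = x n / (C x (n+1) + x n)` converges to the equilibrium `1 / (C + 1)`.

Proof: put `y = 1 / ((C + 1) x)` and `k = C / (C + 1)`, so that `y (n+3) = 1 - k + k (y n / y (n+1))`.
There is an explicit Laurent polynomial `V = W / (A B C)` in three consecutive terms `A, B, C` (all exponents
are `-1, 0` or `1`, the coefficients are affine in `k`) which decreases along every solution: the decrease is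
at least a positive constant times `(1 - k - k^2) ((A-1)^2 + (B-1)^2 + (C-1)^2)`, by an exact certificate
with weighted sums of squares, and `V` is coercive. -/
theorem result (C : ℝ) (hC1 : 1 < C) (hC2 : C < (1 + Real.sqrt 5) / 2) (x : ℕ → ℝ)
    (hx0 : 0 < x 0) (hx1 : 0 < x 1) (hx2 : 0 < x 2)
    (hr : ∀ n, x (n + 3) = x n / (C * x (n + 1) + x n)) :
    Tendsto x atTop (𝓝 (1 / (C + 1))) :=
  Pool.Agent.H968.RD.attract C hC1 hC2 x hx0 hx1 hx2 hr

end Pool.Agent.Results.MP_d3fc00_an.GlobalAttractivity
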